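import Pool.Agent.Y998.LQ.Defs
import Pool.Agent.Y998.CN.Tor
import Pool.Agent.Y664.CN.TR

/-!
# LQ-ORB: return probability of a colouring (orbit counting)
-/

set_option autoImplicit false

namespace Pool.Agent.Y948.LQ

open Finset Equiv Pool.Agent.Y998.ST Pool.Agent.Y998.CN Pool.Agent.Y998.LQ

section
variable {V I : Type} [Fintype V] [DecidableEq V]

open Classical in
/-- the permutations which preserve `β` and take `c` to `c'` -/
lemma card_fibre_le (β : V → I) {q : ℕ} (c c' : V → Fin q) :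
    ((univ.filter fun σ : Perm V => ∀ v, β (σ v) = β v).filter fun σ : Perm V => c ∘ σ = c').card ≤
      (univ.filter fun σ : Perm V => ∀ v, β (σ v) = β v ∧ c (σ v) = c v).card := by
  rcases Finset.eq_empty_or_nonempty
    ((univ.filter fun σ : Perm V => ∀ v, β (σ v) = β v).filter fun σ : Perm V => c ∘ σ = c') with h | h
  · rw [h, Finset.card_empty]
    exact Nat.zero_le _
  · obtain ⟨σ₀, h₀⟩ := h
    simp only [Finset.mem_filter, Finset.mem_univ, true_and] at h₀
    obtain ⟨hb, hc⟩ := h₀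
    refine Finset.card_le_card_of_injOn (fun σ => σ * σ₀⁻¹) ?_ ?_
    · intro σ hσ
      simp only [Finset.coe_filter, Set.mem_ofPred_eq, Finset.mem_filter, Finset.mem_univ,
        true_and] at hσ ⊢
      intro v
      have e : σ₀ (σ₀⁻¹ v) = v := σ₀.apply_symm_apply v
      constructor
      · rw [Perm.mul_apply, hσ.1, ← hb (σ₀⁻¹ v), e]
      · have h1 : c (σ (σ₀⁻¹ v)) = c' (σ₀⁻¹ v) := congrFun hσ.2 _
        have h2 : c (σ₀ (σ₀⁻¹ v)) = c' (σ₀⁻¹ v) := congrFun hc _
        rw [Perm.mul_apply, h1, ← h2, e]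
    · intro σ _ τ _ h
      exact mul_right_cancel h

end

theorem t_ORB (hTR : Pool.Agent.Y998.CN.S_TR) : Pool.Agent.Y998.LQ.S_ORB := by
  classical
  intro V I _ _ β q c J t ht hJ hinv
  set P : (V → Fin q) → ℝ := fun c' =>
    ∑ g : Perm V, if ∀ v, c' (g v) = c' v then stirLaw J t g else 0 with hP
  have hP0 : ∀ c', 0 ≤ P c' := fun c' => Finset.sum_nonneg fun g _ => by
    split_ifs
    · exact law_nonneg hJ ht g
    · exact le_rfl
  have hZ : Zf q J t = ∑ c', P c' := by
    rw [← hTR V J q t]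
    simp only [hP]
    rw [Finset.sum_comm]
    refine Finset.sum_congr rfl fun g _ => ?_
    rw [← Pool.Agent.Y664.CN.count, Finset.mul_sum]
    refine Finset.sum_congr rfl fun c' _ => ?_
    by_cases h : c' = c' ∘ g
    · have h' : ∀ v, c' (g v) = c' v := fun v => (congrFun h v).symm
      rw [if_pos h, if_pos h', mul_one]
    · rw [if_neg h, if_neg (fun h' => h (funext fun v => (h' v).symm)), mul_zero]
  have hconj : ∀ σ : Perm V, (∀ v, β (σ v) = β v) → P (c ∘ σ) = P c := by
    intro σ hσ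
    simp only [hP]
    rw [← Equiv.sum_comp (MulAut.conj σ).toEquiv
      (fun g => if ∀ v, c (g v) = c v then stirLaw J t g else 0)]
    refine Finset.sum_congr rfl fun g _ => ?_
    have e1 : (MulAut.conj σ).toEquiv g = σ * g * σ⁻¹ := rfl
    rw [e1, law_conj σ (hinv σ hσ)]
    have hiff : (∀ v, (c ∘ σ) (g v) = (c ∘ σ) v) ↔ ∀ v, c ((σ * g * σ⁻¹) v) = c v := by
      constructor
      · intro h v
        have h1 := h (σ⁻¹ v)
        have e : σ (σ⁻¹ v) = v := σ.apply_symm_apply v
        rw [Function.comp_apply, Function.comp_apply, e] at h1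
        exact h1
      · intro h v
        have h1 := h (σ v)
        have e : σ⁻¹ (σ v) = v := σ.symm_apply_apply v
        rw [Perm.mul_apply, Perm.mul_apply, e] at h1
        exact h1
    by_cases h : ∀ v, c ((σ * g * σ⁻¹) v) = c v
    · rw [if_pos h, if_pos (hiff.2 h)]
    · rw [if_neg h, if_neg (fun h' => h (hiff.1 h'))]
  have hG : (Nat.card {σ : Perm V // ∀ v, β (σ v) = β v} : ℝ) =
      ((univ.filter fun σ : Perm V => ∀ v, β (σ v) = β v).card : ℝ) := by
    rw [Nat.card_eq_fintype_card, Fintype.card_subtype]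
  have hS : (Nat.card {σ : Perm V // ∀ v, β (σ v) = β v ∧ c (σ v) = c v} : ℝ) =
      ((univ.filter fun σ : Perm V => ∀ v, β (σ v) = β v ∧ c (σ v) = c v).card : ℝ) := by
    rw [Nat.card_eq_fintype_card, Fintype.card_subtype]
  rw [hG, hS, hZ]
  have h1 : ((univ.filter fun σ : Perm V => ∀ v, β (σ v) = β v).card : ℝ) * P c =
      ∑ σ ∈ univ.filter (fun σ : Perm V => ∀ v, β (σ v) = β v), P (c ∘ σ) := by
    rw [Finset.sum_congr rfl fun σ hσ => hconj σ (Finset.mem_filter.1 hσ).2, Finset.sum_const,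
      nsmul_eq_mul]
  have h2 : ∀ σ : Perm V, P (c ∘ σ) = ∑ c', if c ∘ σ = c' then P c' else 0 := by
    intro σ
    rw [Finset.sum_ite_eq, if_pos (Finset.mem_univ _)]
  change ((univ.filter fun σ : Perm V => ∀ v, β (σ v) = β v).card : ℝ) * P c ≤ _
  rw [h1, Finset.sum_congr rfl fun σ _ => h2 σ, Finset.sum_comm, Finset.mul_sum]
  refine Finset.sum_le_sum fun c' _ => ?_
  rw [← Finset.sum_filter, Finset.sum_const, nsmul_eq_mul]
  exact mul_le_mul_of_nonneg_right (by exact_mod_cast card_fibre_le β c c') (hP0 c')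

end Pool.Agent.Y948.LQ
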